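import Pool.Agent.QSX.StmtsA

set_option autoImplicit false

namespace Pool.Agent.QSX.H99

open Matrix Finset Pool.Agent.QSX

section

variable (S : Scale)

theorem red_of {z : ℕ → ℝ} (h : S.Md z) : S.red z = Ideal.Quotient.mk S.mm ⟨z, h⟩ := by
  rw [Scale.red, dif_pos h]

theorem md_add {z w : ℕ → ℝ} (hz : S.Md z) (hw : S.Md w) : S.Md (fun s => z s + w s) :=
  Scale.Md.add hz hw

theorem md_mul {z w : ℕ → ℝ} (hz : S.Md z) (hw : S.Md w) : S.Md (fun s => z s * w s) :=
  Scale.Md.mul hz hw

theorem red_add {z w : ℕ → ℝ} (hz : S.Md z) (hw : S.Md w) :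
    S.red (fun s => z s + w s) = S.red z + S.red w := by
  rw [red_of S hz, red_of S hw, red_of S (md_add S hz hw), ← map_add]
  rfl

theorem red_mul {z w : ℕ → ℝ} (hz : S.Md z) (hw : S.Md w) :
    S.red (fun s => z s * w s) = S.red z * S.red w := by
  rw [red_of S hz, red_of S hw, red_of S (md_mul S hz hw), ← map_mul]
  rfl

theorem red_const (r : ℝ) : S.red (fun _ => r) = algebraMap ℝ S.FF r := by
  rw [red_of S (Scale.Md.const S r)]
  rfl

theorem red_eq_zero {z : ℕ → ℝ} (hz : S.Md z) : S.red z = 0 ↔ S.Sm z := by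
  rw [red_of S hz, Ideal.Quotient.eq_zero_iff_mem]
  rfl

theorem md_red_sum {ι : Type} (t : Finset ι) (f : ι → ℕ → ℝ) (h : ∀ k ∈ t, S.Md (f k)) :
    S.Md (fun s => ∑ k ∈ t, f k s) ∧ S.red (fun s => ∑ k ∈ t, f k s) = ∑ k ∈ t, S.red (f k) := by
  classical
  induction t using Finset.induction_on with
  | empty =>
    simp only [Finset.sum_empty]
    exact ⟨Scale.Md.const S 0, by rw [red_const, map_zero]⟩
  | insert a t ha ih =>
    have h1 := ih fun k hk => h k (Finset.mem_insert_of_mem hk)
    have h2 := h a (Finset.mem_insert_self a t)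
    simp only [Finset.sum_insert ha]
    exact ⟨md_add S h2 h1.1, by rw [red_add S h2 h1.1, h1.2]⟩

end

theorem rdm : RdmStmt := by
  intro S m
  refine ⟨?_, ?_, ?_, ?_, ?_⟩
  · intro v w hv hw
    have h : ∀ i j, S.Md (fun s => (v s * w s) i j) ∧ S.red (fun s => (v s * w s) i j) =
        ∑ k, S.red (fun s => v s i k) * S.red (fun s => w s k j) := by
      intro i j
      simp only [Matrix.mul_apply]
      have h1 := md_red_sum S Finset.univ (fun k s => v s i k * w s k j)
        fun k _ => md_mul S (hv i k) (hw k j)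
      refine ⟨h1.1, h1.2.trans ?_⟩
      exact Finset.sum_congr rfl fun k _ => red_mul S (hv i k) (hw k j)
    refine ⟨fun i j => (h i j).1, ?_⟩
    ext i j
    rw [Matrix.mul_apply]
    exact (h i j).2
  · intro v w hv hw
    refine ⟨fun i j => md_add S (hv i j) (hw i j), ?_⟩
    ext i j
    exact red_add S (hv i j) (hw i j)
  · intro A
    refine ⟨fun i j => Scale.Md.const S _, ?_⟩
    ext i j
    exact red_const S (A i j)
  · intro c v hv
    have hc : S.Md (fun _ => c) := Scale.Md.const S c
    refine ⟨fun i j => md_mul S hc (hv i j), ?_⟩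
    ext i j
    have h1 := red_mul S hc (hv i j)
    rw [red_const] at h1
    refine Eq.trans ?_ (h1.trans ?_)
    · rfl
    · rw [Matrix.smul_apply, Algebra.smul_def]
      rfl
  · intro v hv i j
    exact red_eq_zero S (hv i j)

end Pool.Agent.QSX.H99
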