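import Pool.Agent.QSX.StmtsG

set_option autoImplicit false

namespace Pool.Agent.QSX.H99

open Finset Pool.Agent.QSX

section

variable {A : Type} [Ring A] [Algebra ℝ A]

/-- the adjoint operator of z as a linear map -/
noncomputable def adL (z : A) : A →ₗ[ℝ] A := LinearMap.mulLeft ℝ z - LinearMap.mulRight ℝ z

theorem adL_apply (z w : A) : adL z w = z * w - w * z := rfl

theorem iter_eq (z w : A) (k : ℕ) : (fun w => z * w - w * z)^[k] w = (adL z ^ k) w := by
  rw [Module.End.pow_apply]
  rfl

theorem comm_left (z : A) : Commute (LinearMap.mulLeft ℝ z) (LinearMap.mulRight ℝ z) :=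
  LinearMap.commute_mulLeft_right z z

theorem comm_ad (z : A) : Commute (LinearMap.mulLeft ℝ z) (adL z) :=
  (Commute.refl _).sub_right (comm_left z)

theorem right_pow (z w : A) (n : ℕ) :
    w * z ^ n = ∑ k ∈ range (n + 1), ((-1 : ℝ) ^ k * (n.choose k : ℝ)) •
      (z ^ (n - k) * (adL z ^ k) w) := by
  have h1 : LinearMap.mulRight ℝ z = LinearMap.mulLeft ℝ z + -adL z := by
    rw [adL]; abel
  have h2 : (LinearMap.mulRight ℝ z) ^ n = LinearMap.mulRight ℝ (z ^ n) :=
    LinearMap.pow_mulRight (R := ℝ) _ z n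
  have h3 : w * z ^ n = ((LinearMap.mulRight ℝ z) ^ n) w := by rw [h2]; rfl
  rw [h3, h1, (comm_ad z).neg_right.add_pow, ← Finset.sum_range_reflect, LinearMap.sum_apply]
  refine Finset.sum_congr rfl fun k hk => ?_
  have hkn : k ≤ n := Nat.lt_succ_iff.1 (Finset.mem_range.1 hk)
  have e1 : n + 1 - 1 - k = n - k := by omega
  have e2 : n - (n - k) = k := by omega
  rw [e1, e2, Nat.choose_symm hkn, neg_pow, LinearMap.pow_mulLeft]
  rw [← nsmul_eq_mul', LinearMap.smul_apply]
  rw [Module.End.mul_apply, Module.End.mul_apply, LinearMap.mulLeft_apply]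
  rcases Nat.even_or_odd k with he | ho
  · rw [he.neg_one_pow, he.neg_one_pow, one_mul, Module.End.one_apply, Nat.cast_smul_eq_nsmul]
  · rw [ho.neg_one_pow, ho.neg_one_pow, neg_one_mul, LinearMap.neg_apply, Module.End.one_apply,
      mul_neg, smul_neg, neg_smul, Nat.cast_smul_eq_nsmul]

theorem der_pow (D : A →ₗ[ℝ] A) (hD : ∀ x y, D (x * y) = x * D y + D x * y) (z : A) (n : ℕ) :
    D (z ^ n) = ∑ k ∈ range n, ((-1 : ℝ) ^ k * (n.choose (k + 1) : ℝ)) •
      (z ^ (n - 1 - k) * (adL z ^ k) (D z)) := by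
  have hD1 : D 1 = 0 := by
    have h := hD 1 1
    rw [mul_one, one_mul, mul_one] at h
    have h' : D 1 + D 1 = D 1 + 0 := by rw [add_zero]; exact h.symm
    exact add_left_cancel h'
  induction n with
  | zero => rw [pow_zero, hD1, Finset.sum_range_zero]
  | succ n ih =>
    rw [pow_succ', hD, ih, right_pow z (D z) n, Finset.mul_sum]
    rw [Finset.sum_range_succ _ n, Finset.sum_range_succ _ n, ← add_assoc, ← Finset.sum_add_distrib]
    congr 1
    · refine Finset.sum_congr rfl fun k hk => ?_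
      have hkn : k < n := Finset.mem_range.1 hk
      have e1 : n + 1 - 1 - k = n - k := by omega
      have e2 : n - k = (n - 1 - k) + 1 := by omega
      rw [e1, mul_smul_comm, ← mul_assoc, ← pow_succ', ← e2, ← add_smul, Nat.choose_succ_succ]
      congr 1
      push_cast
      ring
    · rw [Nat.add_sub_cancel, Nat.choose_self, Nat.choose_self]

theorem ad_nil {z : A} {N : ℕ} (hz : z ^ N = 0) (w : A) {k : ℕ} (hk : 2 * N ≤ k) :
    (adL z ^ k) w = 0 := by
  have h1 : adL z = LinearMap.mulLeft ℝ z + -LinearMap.mulRight ℝ z := by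
    rw [adL, sub_eq_add_neg]
  rw [h1, (comm_left z).neg_right.add_pow, LinearMap.sum_apply]
  refine Finset.sum_eq_zero fun m hm => ?_
  rcases le_or_gt N m with h | h
  · have : (LinearMap.mulLeft ℝ z) ^ m = 0 := by
      rw [LinearMap.pow_mulLeft, pow_eq_zero_of_le h hz]
      exact LinearMap.mulLeft_zero_eq_zero ℝ A
    rw [this, zero_mul, zero_mul, LinearMap.zero_apply]
  · have : (LinearMap.mulRight ℝ z) ^ (k - m) = 0 := by
      rw [LinearMap.pow_mulRight, pow_eq_zero_of_le (by omega) hz]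
      exact LinearMap.mulRight_zero_eq_zero ℝ A
    rw [neg_pow, this, mul_zero, mul_zero, zero_mul, LinearMap.zero_apply]

omit [Algebra ℝ A] in
/-- summation over a triangle that contains the support -/
theorem tri (F : ℕ → ℕ → A) (N K : ℕ) (h1 : ∀ j k, N ≤ j → F j k = 0)
    (h2 : ∀ j k, K ≤ k → F j k = 0) :
    ∑ n ∈ range (N + K), ∑ k ∈ range (n + 1), F (n - k) k =
      ∑ j ∈ range N, ∑ k ∈ range K, F j k := by
  rw [← Finset.sum_product' (range N) (range K) F]
  rw [← Finset.sum_fiberwise_of_maps_to (s := range N ×ˢ range K) (t := range (N + K))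
    (g := fun p => p.1 + p.2)]
  · refine Finset.sum_congr rfl fun n hn => ?_
    have e : ∑ k ∈ range (n + 1), F (n - k) k = ∑ p ∈ antidiagonal n, F p.1 p.2 := by
      rw [← Finset.Nat.sum_antidiagonal_swap]
      exact (Finset.Nat.sum_antidiagonal_eq_sum_range_succ (fun i j => F j i) n).symm
    rw [e]
    symm
    refine Finset.sum_subset ?_ ?_
    · intro p hp
      rw [Finset.mem_filter] at hp
      exact Finset.HasAntidiagonal.mem_antidiagonal.2 hp.2
    · intro p hp hp2
      rw [Finset.mem_filter, Finset.mem_product, Finset.mem_range, Finset.mem_range] at hp2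
      have h3 := Finset.HasAntidiagonal.mem_antidiagonal.1 hp
      rcases le_or_gt N p.1 with h | h
      · exact h1 _ _ h
      · rcases le_or_gt K p.2 with h' | h'
        · exact h2 _ _ h'
        · exact absurd ⟨⟨h, h'⟩, h3⟩ hp2
  · intro p hp
    rw [Finset.mem_product, Finset.mem_range, Finset.mem_range] at hp
    rw [Finset.mem_range]
    omega

end

theorem dex : DexStmt := by
  intro A _ _ D hD z N hz
  have hit : ∀ k, (fun w => z * w - w * z)^[k] (D z) = (adL z ^ k) (D z) :=
    fun k => iter_eq z (D z) k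
  simp only [hit]
  rw [map_sum]
  set F : ℕ → ℕ → A := fun j k => (((j.factorial : ℝ)⁻¹) • z ^ j) *
    (((-1 : ℝ) ^ k * ((k + 1).factorial : ℝ)⁻¹) • (adL z ^ k) (D z)) with hF
  have h1 : ∀ j k, N ≤ j → F j k = 0 := by
    intro j k hj
    rw [hF]
    simp only
    rw [pow_eq_zero_of_le hj hz, smul_zero, zero_mul]
  have h2 : ∀ j k, 2 * N + 1 ≤ k → F j k = 0 := by
    intro j k hk
    rw [hF]
    simp only
    rw [ad_nil hz (D z) (by omega : 2 * N ≤ k), smul_zero, mul_zero]
  have h3 := tri F N (2 * N + 1) h1 h2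
  rw [Finset.sum_mul_sum, ← h3]
  have h4 : ∀ n, D (((n.factorial : ℝ)⁻¹) • z ^ n) = ∑ k ∈ range n, F (n - 1 - k) k := by
    intro n
    rw [map_smul, der_pow D hD, Finset.smul_sum]
    refine Finset.sum_congr rfl fun k hk => ?_
    have hkn : k < n := Finset.mem_range.1 hk
    rw [hF]
    simp only
    rw [smul_mul_assoc, mul_smul_comm, smul_smul, smul_smul]
    congr 1
    have e : ((n.choose (k + 1) : ℕ) : ℝ) * ((k + 1).factorial : ℝ) * ((n - 1 - k).factorial : ℝ) =
        (n.factorial : ℝ) := by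
      have := Nat.choose_mul_factorial_mul_factorial (n := n) (k := k + 1) hkn
      rw [show n - (k + 1) = n - 1 - k from by omega] at this
      exact_mod_cast this
    have p1 : ((k + 1).factorial : ℝ) ≠ 0 := by exact_mod_cast (Nat.factorial_ne_zero (k + 1))
    have p2 : ((n - 1 - k).factorial : ℝ) ≠ 0 := by
      exact_mod_cast (Nat.factorial_ne_zero (n - 1 - k))
    have p3 : (n.factorial : ℝ) ≠ 0 := by exact_mod_cast (Nat.factorial_ne_zero n)
    field_simp
    rw [← e]
    ring
  have h5 : ∑ n ∈ range N, D (((n.factorial : ℝ)⁻¹) • z ^ n) =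
      ∑ n ∈ range (N + (2 * N + 1) + 1), D (((n.factorial : ℝ)⁻¹) • z ^ n) := by
    refine Finset.sum_subset (Finset.range_subset_range.2 (by omega)) ?_
    intro n _ hn
    rw [Finset.mem_range, not_lt] at hn
    rw [pow_eq_zero_of_le hn hz, smul_zero, map_zero]
  rw [h5, Finset.sum_range_succ']
  simp only [h4]
  rw [Finset.sum_range_zero, add_zero]
  refine Finset.sum_congr rfl fun n _ => Finset.sum_congr rfl fun k _ => ?_
  rw [Nat.add_sub_cancel]

end Pool.Agent.QSX.H99
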